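import Pool.Agent.H24.EH.Defs
import Pool.Agent.H49.EH.Mod1

/-!
# EHP: the boundary term at the left end `l → -∞`

`Th yV l = O(e^{l/2})` uniformly in `η`, `Th (yQ a) l = 0` for `l` near `-∞`.
-/

set_option autoImplicit false

open MeasureTheory Set Filter Topology
open scoped Real

noncomputable section

namespace Pool.Agent.H36.EH.Left

open Pool.Agent.H23.EH (d1 d2 gp)
open Pool.Agent.H24.EH

/-! ## bounds for `H` and `Psi` -/

section abstr

variable {Fl Fg Flg : ℝ → ℝ → ℝ} {e l v δ K : ℝ}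

theorem H_zero (h0 : ∀ t, t ≤ e → Fg l t = 0) (hv : v ≤ e) :
    Pool.Agent.H15.EH.H Fg e l v = 0 := by
  unfold Pool.Agent.H15.EH.H
  rw [intervalIntegral.integral_congr (g := fun _ => (0 : ℝ))]
  · simp
  · intro t ht
    rw [uIcc_of_ge hv] at ht
    simp [h0 t ht.2]

theorem Hl_zero (h0 : ∀ t, t ≤ e → Fg l t = 0) (hv : v ≤ e) :
    Pool.Agent.H15.EH.Hl Fg Flg e l v = 0 := by
  unfold Pool.Agent.H15.EH.Hl
  rw [intervalIntegral.integral_congr (g := fun _ => (0 : ℝ))]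
  · simp
  · intro t ht
    rw [uIcc_of_ge hv] at ht
    simp [h0 t ht.2]

theorem Psi_zero (h0 : ∀ t, t ≤ e → Fg l t = 0) (hv : v ≤ e) :
    Pool.Agent.H15.EH.Psi Fl Fg Flg e l v = 0 := by
  unfold Pool.Agent.H15.EH.Psi
  rw [intervalIntegral.integral_congr (g := fun _ => (0 : ℝ))]
  · simp
  · intro t ht
    rw [uIcc_of_ge hv] at ht
    simp [Pool.Agent.H15.EH.W, h0 t ht.2, Hl_zero (Flg := Flg) h0 ht.2]

theorem H_abs_le (he : 0 ≤ e) (hb : ∀ t, e ≤ t → t ≤ δ → |Fg l t| ≤ K) (hev : e ≤ v)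
    (hv : v ≤ δ) : |Pool.Agent.H15.EH.H Fg e l v| ≤ K ^ 2 * v := by
  unfold Pool.Agent.H15.EH.H
  have h := intervalIntegral.norm_integral_le_of_norm_le_const (a := e) (b := v)
    (f := fun t => Fg l t ^ 2) (C := K ^ 2) (fun t ht => by
      rw [uIoc_of_le hev] at ht
      rw [Real.norm_eq_abs, abs_pow]
      exact pow_le_pow_left₀ (abs_nonneg _) (hb t ht.1.le (ht.2.trans hv)) 2)
  rw [Real.norm_eq_abs] at h
  refine h.trans ?_
  rw [abs_of_nonneg (by linarith)]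
  exact mul_le_mul_of_nonneg_left (by linarith) (sq_nonneg K)

theorem Hl_abs_le (he : 0 ≤ e) (hK : 0 ≤ K) (hb : ∀ t, e ≤ t → t ≤ δ → |Fg l t| ≤ K)
    (hb' : ∀ t, e ≤ t → t ≤ δ → |Flg l t| ≤ K) (hev : e ≤ v)
    (hv : v ≤ δ) : |Pool.Agent.H15.EH.Hl Fg Flg e l v| ≤ 2 * K ^ 2 * v := by
  unfold Pool.Agent.H15.EH.Hl
  have h := intervalIntegral.norm_integral_le_of_norm_le_const (a := e) (b := v)
    (f := fun t => 2 * Fg l t * Flg l t) (C := 2 * K ^ 2) (fun t ht => by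
      rw [uIoc_of_le hev] at ht
      rw [Real.norm_eq_abs, abs_mul, abs_mul, abs_of_pos (by norm_num : (0 : ℝ) < 2)]
      have h1 := hb t ht.1.le (ht.2.trans hv)
      have h2 := hb' t ht.1.le (ht.2.trans hv)
      have h3 : |Fg l t| * |Flg l t| ≤ K * K := mul_le_mul h1 h2 (abs_nonneg _) hK
      nlinarith)
  rw [Real.norm_eq_abs] at h
  refine h.trans ?_
  rw [abs_of_nonneg (by linarith)]
  exact mul_le_mul_of_nonneg_left (by linarith) (by positivity)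

theorem Psi_abs_le (he : 0 ≤ e) (hK : 0 ≤ K) (hδ1 : δ ≤ 1)
    (ha : ∀ t, e ≤ t → t ≤ δ → |Fl l t| ≤ K) (hb : ∀ t, e ≤ t → t ≤ δ → |Fg l t| ≤ K)
    (hb' : ∀ t, e ≤ t → t ≤ δ → |Flg l t| ≤ K) (hev : e ≤ v)
    (hv : v ≤ δ) : |Pool.Agent.H15.EH.Psi Fl Fg Flg e l v| ≤ 4 * K ^ 2 * v := by
  unfold Pool.Agent.H15.EH.Psi
  have h := intervalIntegral.norm_integral_le_of_norm_le_const (a := e) (b := v)
    (f := fun t => Pool.Agent.H15.EH.W Fl Fg Flg e l t) (C := 4 * K ^ 2) (fun t ht => by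
      rw [uIoc_of_le hev] at ht
      rw [Real.norm_eq_abs]
      unfold Pool.Agent.H15.EH.W
      refine (abs_sub _ _).trans ?_
      rw [abs_mul, abs_mul, abs_of_pos (by norm_num : (0 : ℝ) < 2)]
      have h1 := ha t ht.1.le (ht.2.trans hv)
      have h2 := hb t ht.1.le (ht.2.trans hv)
      have h3 : |Fl l t| * |Fg l t| ≤ K * K := mul_le_mul h1 h2 (abs_nonneg _) hK
      have h4 := Hl_abs_le he hK hb hb' ht.1.le (ht.2.trans hv)
      have h5 : 2 * K ^ 2 * t ≤ 2 * K ^ 2 * 1 :=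
        mul_le_mul_of_nonneg_left (by linarith [ht.2]) (by positivity)
      nlinarith)
  rw [Real.norm_eq_abs] at h
  refine h.trans ?_
  rw [abs_of_nonneg (by linarith)]
  exact mul_le_mul_of_nonneg_left (by linarith) (by positivity)

end abstr

/-! ## the profile -/

theorem chi'_nonneg (x : ℝ) : 0 ≤ chi' x := by
  unfold chi'
  split_ifs with h1 h2
  · exact le_rfl
  · have : 0 ≤ 2 - x := by linarith
    positivity
  · exact zero_le_one

theorem chi'_le_one (x : ℝ) : chi' x ≤ 1 := by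
  unfold chi'
  split_ifs with h1 h2
  · exact zero_le_one
  · push Not at h1
    have h : 0 ≤ (x - 1) ^ 2 * (x + 2) := mul_nonneg (sq_nonneg _) (by linarith)
    nlinarith
  · exact le_rfl

theorem B1_nonneg (η t : ℝ) : 0 ≤ B1 η t := chi'_nonneg _

theorem B1_le_one (η t : ℝ) : B1 η t ≤ 1 := chi'_le_one _

theorem B1_eq_zero {η t : ℝ} (hη : 0 < η) (ht : t ≤ η) : B1 η t = 0 := by
  unfold B1 chi'
  rw [if_pos]
  rw [div_le_iff₀ hη]
  linarith

theorem chi_nonneg (x : ℝ) : 0 ≤ chi x := by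
  unfold chi
  split_ifs with h1 h2
  · exact le_rfl
  · push Not at h1
    have h3 : 0 ≤ 3 - x := by linarith
    have h4 : 0 ≤ x + 1 := by linarith
    positivity
  · push Not at h2
    linarith

theorem chi_le_one {x : ℝ} (hx : x ≤ 1) : chi x ≤ 1 := by
  unfold chi
  split_ifs with h1
  · exact zero_le_one
  · push Not at h1
    obtain ⟨u, hu⟩ : ∃ u, u = 1 - x := ⟨_, rfl⟩
    have hx' : x = 1 - u := by linarith
    have hu0 : 0 ≤ u := by linarith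
    have hu2 : u ≤ 2 := by linarith
    have h : 0 ≤ u * (16 - 4 * u ^ 2 + u ^ 3) := by
      have : 0 ≤ 16 - 4 * u ^ 2 + u ^ 3 := by
        have : 0 ≤ u ^ 3 := by positivity
        nlinarith
      positivity
    rw [hx']
    nlinarith

theorem Bp_pos {η : ℝ} (hη : 0 < η) (t : ℝ) : 0 < Bp η t := by
  unfold Bp
  have := mul_nonneg hη.le (chi_nonneg ((t - 2 * η) / η))
  linarith

theorem Bp_le_one {η t : ℝ} (hη : 0 < η) (hη3 : η ≤ 1 / 3) (ht : t ≤ 1) : Bp η t ≤ 1 := by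
  rcases le_total t (3 * η) with h | h
  · have h1 : (t - 2 * η) / η ≤ 1 := by
      rw [div_le_iff₀ hη]
      linarith
    have h2 := mul_le_mul_of_nonneg_left (chi_le_one h1) hη.le
    unfold Bp
    linarith
  · rcases h.eq_or_lt with h3 | h3
    · rw [← h3]
      have h1 : (3 * η - 2 * η) / η ≤ 1 := by
        rw [div_le_iff₀ hη]
        linarith
      have h2 := mul_le_mul_of_nonneg_left (chi_le_one h1) hη.le
      unfold Bp
      linarith
    · have h1 : 1 < (t - 2 * η) / η := by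
        rw [lt_div_iff₀ hη]
        linarith
      have h2 : chi ((t - 2 * η) / η) = (t - 2 * η) / η := by
        unfold chi
        rw [if_neg (by linarith), if_neg (by linarith)]
      unfold Bp
      rw [h2]
      have : η * ((t - 2 * η) / η) = t - 2 * η := by field_simp
      linarith

/-! ## the model level function -/

theorem yV_eq_gv (l φ : ℝ) : yV (l, φ) = Pool.Agent.H49.EH.gv l φ := by
  unfold yV gV Pool.Agent.H49.EH.gv Pool.Agent.H49.EH.Cv Pool.Agent.H49.EH.Dv ex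
  have h1 : ‖Complex.exp ((((l, φ) : ℝ × ℝ).1 : ℂ) + (((l, φ) : ℝ × ℝ).2 : ℂ) * Complex.I)‖ =
      Real.exp l := by
    rw [Complex.norm_exp]
    simp
  rw [h1]
  congr 3
  rw [Complex.norm_def, Complex.normSq_apply]
  congr 1
  simp only [Complex.sub_re, Complex.sub_im, Complex.exp_re, Complex.exp_im, Complex.add_re,
    Complex.add_im, Complex.mul_re, Complex.mul_im, Complex.ofReal_re, Complex.ofReal_im,
    Complex.I_re, Complex.I_im]
  have hs := Real.sin_sq_add_cos_sq φ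
  simp only [mul_zero, mul_one, sub_self, add_zero, zero_add, sub_zero,
    Complex.re_ofNat, Complex.im_ofNat]
  linear_combination (Real.exp l ^ 2) * hs

theorem d1_abs_le {G : ℝ × ℝ → ℝ} {l φ v : ℝ} (h : HasDerivAt (fun s => G (s, φ)) v l) :
    |d1 G (l, φ)| ≤ |v| := by
  by_cases hd : DifferentiableAt ℝ G (l, φ)
  · have h1 : HasDerivAt (fun s : ℝ => ((s, φ) : ℝ × ℝ)) (1, 0) l :=
      (hasDerivAt_id l).prodMk (hasDerivAt_const l φ)
    have h2 : HasDerivAt (fun s => G (s, φ)) (fderiv ℝ G (l, φ) (1, 0)) l :=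
      hd.hasFDerivAt.comp_hasDerivAt l h1
    have h3 := h.unique h2
    unfold d1
    rw [h3]
  · unfold d1
    rw [fderiv_zero_of_not_differentiableAt hd]
    simp

theorem yV_nonneg (l φ : ℝ) : 0 ≤ yV (l, φ) := by
  rw [yV_eq_gv]
  exact Pool.Agent.H49.EH.gv_nonneg l φ

theorem off_of_pos {l φ : ℝ} (hl : l ≤ 0) (h : 0 < yV (l, φ)) :
    Pool.Agent.H49.EH.Off l φ := by
  right
  by_contra hc
  push Not at hc
  have hc1 : Real.cos φ = 1 := le_antisymm (Real.cos_le_one φ) hc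
  have he : Real.exp l ≤ 1 := Real.exp_le_one_iff.2 hl
  have hD : Pool.Agent.H49.EH.Dv l φ = 4 - Real.exp l := by
    unfold Pool.Agent.H49.EH.Dv
    rw [hc1]
    have : Real.exp l ^ 2 - 8 * Real.exp l * 1 + 16 = (4 - Real.exp l) ^ 2 := by ring
    rw [this, Real.sqrt_sq (by linarith)]
  rw [yV_eq_gv] at h
  unfold Pool.Agent.H49.EH.gv Pool.Agent.H49.EH.Cv at h
  rw [hD] at h
  have : (Real.exp l + (4 - Real.exp l)) / 4 = 1 := by ring
  rw [this, Real.arcosh_zero] at h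
  exact lt_irrefl _ h

theorem d1_yV_le {l φ : ℝ} (hl : l ≤ 0) (h : 0 < yV (l, φ)) : |d1 yV (l, φ)| ≤ 1 := by
  have hoff := off_of_pos hl h
  have hD := Pool.Agent.H49.EH.Dv_pos hoff
  have he : Real.exp l ≤ 1 := Real.exp_le_one_iff.2 hl
  have h1 : HasDerivAt (fun s => yV (s, φ)) (Pool.Agent.H49.EH.gvl l φ) l := by
    have h2 := Pool.Agent.H49.EH.hasDerivAt_gv_l hoff
    have h3 : (fun s => yV (s, φ)) = fun s => Pool.Agent.H49.EH.gv s φ :=
      funext fun s => yV_eq_gv s φ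
    rw [h3]
    exact h2
  refine (d1_abs_le h1).trans ?_
  unfold Pool.Agent.H49.EH.gvl
  have hS := Pool.Agent.H49.EH.Sv_nonneg l φ
  rw [abs_of_nonneg (by positivity), div_le_one hD]
  have h4 := Pool.Agent.H49.EH.Dv_ge_right l φ
  have h5 := Pool.Agent.H49.EH.Sv_sq l φ
  have h6 := Pool.Agent.H49.EH.Cv_le l φ
  have h7 := Pool.Agent.H49.EH.one_le_Cv l φ
  have h8 : Pool.Agent.H49.EH.Cv l φ ^ 2 ≤ (3 / 2) ^ 2 :=
    pow_le_pow_left₀ (by linarith) (by linarith) 2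
  have h9 : 2 * Pool.Agent.H49.EH.Sv l φ ≤ 3 := by nlinarith
  linarith

theorem one_add_le_cosh {y : ℝ} (hy : 0 ≤ y) : 1 + y ^ 2 / 2 ≤ Real.cosh y := by
  have h1 : Real.cosh y = 1 + 2 * Real.sinh (y / 2) ^ 2 := by
    have h2 := Real.cosh_two_mul (y / 2)
    have h3 := Real.cosh_sq (y / 2)
    have h4 : 2 * (y / 2) = y := by ring
    rw [h4] at h2
    linarith
  have h5 : y / 2 ≤ Real.sinh (y / 2) := Real.self_le_sinh_iff.2 (by linarith)
  have h6 : (y / 2) ^ 2 ≤ Real.sinh (y / 2) ^ 2 := pow_le_pow_left₀ (by linarith) h5 2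
  rw [h1]
  linarith

theorem yV_le {l φ : ℝ} : yV (l, φ) ≤ Real.exp (l / 2) := by
  rw [yV_eq_gv]
  have h1 := Pool.Agent.H49.EH.cosh_gv l φ
  have h2 := Pool.Agent.H49.EH.Cv_le l φ
  have h0 := Pool.Agent.H49.EH.gv_nonneg l φ
  have h3 : 1 + Pool.Agent.H49.EH.gv l φ ^ 2 / 2 ≤ Real.cosh (Pool.Agent.H49.EH.gv l φ) :=
    one_add_le_cosh h0
  have h4 : Real.exp l = Real.exp (l / 2) ^ 2 := by
    rw [← Real.exp_nat_mul]
    congr 1
    push_cast
    ring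
  have h5 : Pool.Agent.H49.EH.gv l φ ^ 2 ≤ Real.exp (l / 2) ^ 2 := by
    rw [← h4]
    linarith
  exact le_of_sq_le_sq h5 (Real.exp_pos _).le

/-! ## the boundary term -/

variable {F Fl Fg Fll Flg Fgg Fllg : ℝ → ℝ → ℝ}

theorem FFg_zero {η : ℝ} (hη : 0 < η) (l t : ℝ) (ht : t ≤ η) : FFg Fg η l t = 0 := by
  unfold FFg
  rw [B1_eq_zero hη ht, mul_zero]

/-- **the left end of the model**: uniform in `η` -/
theorem Th_yV_left {p : ℝ} (hF : ∃ K, ∀ l g, rho l ≤ p / 2 → 0 < g → g ≤ 1 →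
    |Fl l g| ≤ K * rho l ∧ |Fg l g| ≤ K ∧ |Flg l g| ≤ K * rho l) :
    ∃ K, 0 ≤ K ∧ ∀ η, 0 < η → η ≤ 1 / 3 → ∀ l, l ≤ 0 → rho l ≤ p / 2 →
      |Th Fl Fg Flg η yV l| ≤ K * Real.exp (l / 2) := by
  obtain ⟨K0, hK0⟩ := hF
  obtain ⟨K, hKd⟩ : ∃ K, K = |K0| := ⟨_, rfl⟩
  have hK : 0 ≤ K := hKd ▸ abs_nonneg _
  refine ⟨5 * K ^ 2 * (2 * π), by positivity, ?_⟩
  intro η hη hη3 l hl hlp
  have hr0 : 0 < rho l := by unfold rho; positivity
  have hr1 : rho l ≤ 1 := by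
    unfold rho
    have := Real.exp_le_one_iff.2 hl
    linarith
  have hb : ∀ g, 0 < g → g ≤ 1 → |Fl l g| ≤ K ∧ |Fg l g| ≤ K ∧ |Flg l g| ≤ K := by
    intro g hg hg1
    obtain ⟨h1, h2, h3⟩ := hK0 l g hlp hg hg1
    have h4 : K0 ≤ K := hKd ▸ le_abs_self K0
    have h5 : K0 * rho l ≤ K := by
      calc K0 * rho l ≤ K * rho l := mul_le_mul_of_nonneg_right h4 hr0.le
        _ ≤ K * 1 := mul_le_mul_of_nonneg_left hr1 hK
        _ = K := mul_one K
    exact ⟨h1.trans h5, h2.trans h4, h3.trans h5⟩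
  obtain ⟨δ, hδ⟩ : ∃ δ, δ = Real.exp (l / 2) := ⟨_, rfl⟩
  have hδ1 : δ ≤ 1 := by
    rw [hδ, Real.exp_le_one_iff]
    linarith
  have hδ0 : 0 < δ := hδ ▸ Real.exp_pos _
  have hBp : ∀ t, t ≤ δ → 0 < Bp η t ∧ Bp η t ≤ 1 := fun t ht =>
    ⟨Bp_pos hη t, Bp_le_one hη hη3 (ht.trans hδ1)⟩
  have ha : ∀ t, η ≤ t → t ≤ δ → |FFl Fl η l t| ≤ K := fun t _ ht =>
    (hb _ (hBp t ht).1 (hBp t ht).2).1
  have hmulB : ∀ x t, |x| ≤ K → |x * B1 η t| ≤ K := by
    intro x t hx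
    rw [abs_mul, abs_of_nonneg (B1_nonneg η t)]
    calc |x| * B1 η t ≤ K * 1 := mul_le_mul hx (B1_le_one η t) (B1_nonneg η t) hK
      _ = K := mul_one K
  have hbg : ∀ t, η ≤ t → t ≤ δ → |FFg Fg η l t| ≤ K := fun t _ ht =>
    hmulB _ _ (hb _ (hBp t ht).1 (hBp t ht).2).2.1
  have hblg : ∀ t, η ≤ t → t ≤ δ → |FFlg Flg η l t| ≤ K := fun t _ ht =>
    hmulB _ _ (hb _ (hBp t ht).1 (hBp t ht).2).2.2
  have h0 : ∀ t, t ≤ η → FFg Fg η l t = 0 := fun t ht => FFg_zero hη l t ht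
  have hpt : ∀ φ : ℝ, |Hf Fg η l (yV (l, φ)) * d1 yV (l, φ) + Pf Fl Fg Flg η l (yV (l, φ))| ≤
      5 * K ^ 2 * δ := by
    intro φ
    have hy : yV (l, φ) ≤ δ := by rw [hδ]; exact yV_le
    rcases le_total (yV (l, φ)) η with h | h
    · have e1 : Hf Fg η l (yV (l, φ)) = 0 := H_zero h0 h
      have e2 : Pf Fl Fg Flg η l (yV (l, φ)) = 0 := Psi_zero h0 h
      rw [e1, e2]
      simp only [zero_mul, add_zero, abs_zero]
      positivity
    · have hpos : 0 < yV (l, φ) := lt_of_lt_of_le hη h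
      have e1 : |Hf Fg η l (yV (l, φ))| ≤ K ^ 2 * yV (l, φ) := H_abs_le hη.le hbg h hy
      have e2 : |Pf Fl Fg Flg η l (yV (l, φ))| ≤ 4 * K ^ 2 * yV (l, φ) :=
        Psi_abs_le hη.le hK hδ1 ha hbg hblg h hy
      have e3 := d1_yV_le hl hpos
      refine (abs_add_le _ _).trans ?_
      rw [abs_mul]
      have e4 : |Hf Fg η l (yV (l, φ))| * |d1 yV (l, φ)| ≤ K ^ 2 * yV (l, φ) * 1 :=
        mul_le_mul e1 e3 (abs_nonneg _) (by positivity)
      have e5 : 5 * K ^ 2 * yV (l, φ) ≤ 5 * K ^ 2 * δ :=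
        mul_le_mul_of_nonneg_left hy (by positivity)
      linarith
  have h := intervalIntegral.norm_integral_le_of_norm_le_const (a := (0 : ℝ)) (b := 2 * π)
    (f := fun φ => Hf Fg η l (yV (l, φ)) * d1 yV (l, φ) + Pf Fl Fg Flg η l (yV (l, φ)))
    (C := 5 * K ^ 2 * δ) (fun φ _ => by rw [Real.norm_eq_abs]; exact hpt φ)
  rw [Real.norm_eq_abs, sub_zero, abs_of_pos (by positivity : (0 : ℝ) < 2 * π)] at h
  unfold Th
  refine h.trans (le_of_eq ?_)
  rw [hδ]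
  ring

/-- the boundary term vanishes where the level function is `≤ η` -/
theorem Th_zero {y : ℝ × ℝ → ℝ} {η l : ℝ} (hη : 0 < η) (hy : ∀ φ, y (l, φ) ≤ η) :
    Th Fl Fg Flg η y l = 0 := by
  unfold Th
  have h0 : ∀ t, t ≤ η → FFg Fg η l t = 0 := fun t ht => FFg_zero hη l t ht
  rw [intervalIntegral.integral_congr (g := fun _ => (0 : ℝ))]
  · simp
  · intro φ _
    have e1 : Hf Fg η l (y (l, φ)) = 0 := H_zero h0 (hy φ)
    have e2 : Pf Fl Fg Flg η l (y (l, φ)) = 0 := Psi_zero h0 (hy φ)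
    simp only [e1, e2, zero_mul, add_zero]

/-- `yQ = 0` near `l = -∞` if `|Q 0| < 1` -/
theorem yQ_left {n : ℕ} (a : Fin n → ℂ) (h0 : ∏ j, ‖a j‖ < 1) :
    ∃ l₀ : ℝ, ∀ l ≤ l₀, ∀ φ, yQ a (l, φ) = 0 := by
  have hc : Continuous (fun z : ℂ => ‖∏ j, (z - a j)‖) := by fun_prop
  have h1 : ‖∏ j, ((0 : ℂ) - a j)‖ < 1 := by
    rw [norm_prod]
    simpa using h0
  have h2 : ∀ᶠ z in 𝓝 (0 : ℂ), ‖∏ j, (z - a j)‖ < 1 := hc.continuousAt.eventually_lt
    continuousAt_const h1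
  obtain ⟨r, hr, hr'⟩ := Metric.eventually_nhds_iff.1 h2
  refine ⟨Real.log (r / 2), fun l hl φ => ?_⟩
  have h3 : ‖ex (l, φ)‖ = Real.exp l := by
    unfold ex
    rw [Complex.norm_exp]
    simp
  have h4 : dist (ex (l, φ)) 0 < r := by
    rw [dist_zero_right, h3]
    have : Real.exp l ≤ r / 2 := by
      rw [← Real.exp_log (by positivity : (0 : ℝ) < r / 2)]
      exact Real.exp_le_exp.2 hl
    linarith
  have h5 := hr' h4
  unfold yQ gQ
  rw [(Real.posLog_eq_zero_iff _).2]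
  · ring
  · rw [abs_of_nonneg (norm_nonneg _)]
    exact h5.le

/-- **the left end of the polynomial side** -/
theorem Th_yQ_left {n : ℕ} (a : Fin n → ℂ) (h0 : ∏ j, ‖a j‖ < 1) :
    ∃ l₀ : ℝ, ∀ η, 0 < η → ∀ l ≤ l₀, Th Fl Fg Flg η (yQ a) l = 0 := by
  obtain ⟨l₀, h⟩ := yQ_left a h0
  exact ⟨l₀, fun η hη l hl => Th_zero hη fun φ => by rw [h l hl φ]; exact hη.le⟩

/-! ## the statements of the energy part -/

/-- (E) left end, polynomial side -/
theorem left_Q {n : ℕ} {a : Fin n → ℂ} {p : ℝ} (hT : Touch a p)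
    {F Fl Fg Fll Flg Fgg Fllg : ℝ → ℝ → ℝ}
    (_hF : Pool.Agent.H15.EH.FData F Fl Fg Fll Flg Fgg Fllg) :
    ∃ l₀, (∀ l φ, l ≤ l₀ → yQ a (l, φ) = 0) ∧ ∀ η, 0 < η → ∀ l, l ≤ l₀ →
      Th Fl Fg Flg η (yQ a) l = 0 := by
  obtain ⟨l₀, h⟩ := yQ_left a hT.a0
  exact ⟨l₀, fun l φ hl => h l hl φ, fun η hη l hl => Th_zero hη fun φ => by
    rw [h l hl φ]; exact hη.le⟩

/-- (E) left end, model side -/
theorem left_V {p c : ℝ} (hp : 0 < p) {F Fl Fg Fll Flg Fgg Fllg : ℝ → ℝ → ℝ}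
    (hF : FHyp p c F Fl Fg Fll Flg Fgg Fllg) :
    ∃ K l₀, ∀ η, 0 < η → η ≤ 1 / 3 → ∀ l, l ≤ l₀ →
      |Th Fl Fg Flg η yV l| ≤ K * Real.exp (l / 2) := by
  obtain ⟨K, _, h⟩ := Th_yV_left hF.left
  refine ⟨K, min 0 (Real.log (2 * p)), fun η hη hη3 l hl => ?_⟩
  refine h η hη hη3 l (hl.trans (min_le_left _ _)) ?_
  have h1 : Real.exp l ≤ 2 * p := by
    rw [← Real.exp_log (by positivity : (0 : ℝ) < 2 * p)]
    exact Real.exp_le_exp.2 (hl.trans (min_le_right _ _))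
  unfold rho
  linarith

end Pool.Agent.H36.EH.Left
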